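import Pool.Agent.H84.ND.Targets2

/-!
# MP_70ba79_ag, board `ndc_modules`, row SP2: specialisation of the spaces of numerators
-/

set_option autoImplicit false

namespace Pool.Agent.H34.ND

open MvPolynomial SC Pool.Agent.H27.LV Pool.Agent.H84.SM Pool.Agent.H84.ND

/-! ### Semicontinuity -/

/-- solutions of a system of linear equations -/
def kz {F J R : Type} [Field F] [Fintype J] (a : R → J → F) : Submodule F (J → F) where
  carrier := {c | ∀ σ, ∑ α, c α * a σ α = 0}
  add_mem' := by
    intro c c' h h' σ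
    simp only [Pi.add_apply, add_mul, Finset.sum_add_distrib]
    rw [h σ, h' σ, add_zero]
  zero_mem' := by
    intro σ
    simp
  smul_mem' := by
    intro x c h σ
    simp only [Pi.smul_apply, smul_eq_mul, mul_assoc]
    rw [← Finset.mul_sum, h σ, mul_zero]

theorem mem_kz {F J R : Type} [Field F] [Fintype J] {a : R → J → F} {c : J → F} :
    c ∈ kz a ↔ ∀ σ, ∑ α, c α * a σ α = 0 := Iff.rfl

theorem semi (hMRK : Pool.Agent.H84.ND.T_MRK) {k K : Type} [Field k] [Field K] [Algebra k K] {t : K}
    (ht : Transcendental k t) {J R : Type} [Fintype J] (A : R → J → Polynomial k) :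
    Module.finrank K (kz fun σ α => Polynomial.aeval t (A σ α)) ≤
      Module.finrank k (kz fun σ α => (A σ α).eval 0) := by
  classical
  have hfg : (Submodule.span k (Set.range fun σ α => (A σ α).eval 0)).FG :=
    IsNoetherian.noetherian _
  obtain ⟨s', hs', hsp⟩ := (Submodule.fg_span_iff_fg_span_finset_subset _).1 hfg
  have hpre : ∀ f : s', ∃ σ, (fun α => (A σ α).eval 0) = (f : J → k) := fun f => hs' f.2
  choose ρ hρ using hpre
  let B : Matrix s' J (Polynomial k) := fun f α => A (ρ f) α
  let e1 : Fin (Fintype.card s') ≃ s' := (Fintype.equivFin s').symm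
  let e2 : Fin (Fintype.card J) ≃ J := (Fintype.equivFin J).symm
  have h1 : (B.map (Polynomial.eval 0)).rank ≤ (B.map (Polynomial.aeval t)).rank := by
    have h2 := hMRK k K t ht _ _ (B.submatrix e1 e2)
    have h3 : ((B.submatrix e1 e2).map (Polynomial.eval 0)).rank =
        (B.map (Polynomial.eval 0)).rank :=
      Matrix.rank_submatrix (B.map (Polynomial.eval 0)) e1 e2
    have h4 : ((B.submatrix e1 e2).map (Polynomial.aeval t)).rank =
        (B.map (Polynomial.aeval t)).rank :=
      Matrix.rank_submatrix (B.map (Polynomial.aeval t)) e1 e2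
    rw [h3, h4] at h2
    exact h2
  have h5 : Module.finrank k (LinearMap.range (B.map (Polynomial.eval 0)).mulVecLin) +
      Module.finrank k (LinearMap.ker (B.map (Polynomial.eval 0)).mulVecLin) =
      Fintype.card J := by
    rw [LinearMap.finrank_range_add_finrank_ker, Module.finrank_fintype_fun_eq_card]
  have h6 : Module.finrank K (LinearMap.range (B.map (Polynomial.aeval t)).mulVecLin) +
      Module.finrank K (LinearMap.ker (B.map (Polynomial.aeval t)).mulVecLin) =
      Fintype.card J := by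
    rw [LinearMap.finrank_range_add_finrank_ker, Module.finrank_fintype_fun_eq_card]
  have h7 : kz (fun σ α => Polynomial.aeval t (A σ α)) ≤
      LinearMap.ker (B.map (Polynomial.aeval t)).mulVecLin := by
    intro c hc
    rw [LinearMap.mem_ker, Matrix.mulVecLin_apply]
    funext f
    have h8 := mem_kz.1 hc (ρ f)
    simp only [Matrix.mulVec, dotProduct, Matrix.map_apply, Pi.zero_apply, B]
    rw [← h8]
    exact Finset.sum_congr rfl fun α _ => mul_comm _ _
  have h9 : LinearMap.ker (B.map (Polynomial.eval 0)).mulVecLin ≤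
      kz fun σ α => (A σ α).eval 0 := by
    intro c hc
    rw [LinearMap.mem_ker, Matrix.mulVecLin_apply] at hc
    let φ : (J → k) →ₗ[k] k :=
      { toFun := fun f => ∑ α, c α * f α
        map_add' := by
          intro f g
          simp only [Pi.add_apply, mul_add, Finset.sum_add_distrib]
        map_smul' := by
          intro x f
          simp only [Pi.smul_apply, smul_eq_mul, RingHom.id_apply, Finset.mul_sum]
          exact Finset.sum_congr rfl fun α _ => by ring }
    have h10 : Submodule.span k (s' : Set (J → k)) ≤ LinearMap.ker φ := by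
      rw [Submodule.span_le]
      intro f hf
      rw [SetLike.mem_coe, LinearMap.mem_ker]
      have h11 := congrFun hc ⟨f, hf⟩
      simp only [Matrix.mulVec, dotProduct, Matrix.map_apply, Pi.zero_apply, B] at h11
      have h12 : ∀ α, (A (ρ ⟨f, hf⟩) α).eval 0 = f α := fun α => congrFun (hρ ⟨f, hf⟩) α
      change ∑ α, c α * f α = 0
      rw [← h11]
      exact Finset.sum_congr rfl fun α _ => by rw [h12, mul_comm]
    intro σ
    have h13 : (fun α => (A σ α).eval 0) ∈ Submodule.span k (s' : Set (J → k)) := by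
      rw [← hsp]
      exact Submodule.subset_span ⟨σ, rfl⟩
    exact LinearMap.mem_ker.1 (h10 h13)
  have h14 := Submodule.finrank_mono h7
  have h15 := Submodule.finrank_mono h9
  have h16 : (B.map (Polynomial.eval 0)).rank =
    Module.finrank k (LinearMap.range (B.map (Polynomial.eval 0)).mulVecLin) := rfl
  have h17 : (B.map (Polynomial.aeval t)).rank =
    Module.finrank K (LinearMap.range (B.map (Polynomial.aeval t)).mulVecLin) := rfl
  omega

/-! ### Coordinates -/

section Coord

variable {F : Type} [Field F] {τ : Type}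

/-- monomials -/
noncomputable def mo (F : Type) [Field F] (x : ℕ × (τ →₀ ℕ)) : Polynomial (MvPolynomial τ F) :=
  Polynomial.monomial x.1 (MvPolynomial.monomial x.2 1)

/-- coefficients -/
noncomputable def co (x : ℕ × (τ →₀ ℕ)) : Polynomial (MvPolynomial τ F) →ₗ[F] F where
  toFun P := MvPolynomial.coeff x.2 (P.coeff x.1)
  map_add' P Q := by rw [Polynomial.coeff_add, MvPolynomial.coeff_add]
  map_smul' a P := by
    rw [Polynomial.coeff_smul, MvPolynomial.coeff_smul, RingHom.id_apply]

theorem co_apply (x : ℕ × (τ →₀ ℕ)) (P : Polynomial (MvPolynomial τ F)) :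
    co x P = MvPolynomial.coeff x.2 (P.coeff x.1) := rfl

open Classical in
theorem co_mo (x y : ℕ × (τ →₀ ℕ)) : co x (mo F y) = if y = x then 1 else 0 := by
  rw [co_apply, mo, Polynomial.coeff_monomial]
  by_cases h1 : y.1 = x.1
  · rw [if_pos h1, MvPolynomial.coeff_monomial]
    by_cases h2 : y.2 = x.2
    · rw [if_pos h2, if_pos (Prod.ext h1 h2)]
    · rw [if_neg h2, if_neg fun h => h2 (congrArg Prod.snd h)]
  · rw [if_neg h1, if_neg fun h => h1 (congrArg Prod.fst h), MvPolynomial.coeff_zero]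

theorem ext_co {P Q : Polynomial (MvPolynomial τ F)} (h : ∀ x, co x P = co x Q) : P = Q := by
  ext j m
  exact h (j, m)

theorem expand (I : Finset (ℕ × (τ →₀ ℕ))) (P : Polynomial (MvPolynomial τ F))
    (h : ∀ x, co x P ≠ 0 → x ∈ I) : ∑ x ∈ I, co x P • mo F x = P := by
  classical
  refine ext_co fun y => ?_
  rw [map_sum]
  simp only [LinearMap.map_smul, co_mo, smul_eq_mul, mul_ite, mul_one, mul_zero]
  rw [Finset.sum_ite_eq' I y]
  split_ifs with hy
  · rfl
  · by_contra h1
    exact hy (h y (Ne.symm h1))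

theorem exists_supp (P : Polynomial (MvPolynomial τ F)) :
    ∃ I : Finset (ℕ × (τ →₀ ℕ)), ∀ x, co x P ≠ 0 → x ∈ I := by
  classical
  refine ⟨P.support.biUnion fun j => (P.coeff j).support.image fun m => (j, m), fun x hx => ?_⟩
  rw [co_apply] at hx
  rw [Finset.mem_biUnion]
  refine ⟨x.1, ?_, ?_⟩
  · rw [Polynomial.mem_support_iff]
    intro h0
    rw [h0, MvPolynomial.coeff_zero] at hx
    exact hx rfl
  · rw [Finset.mem_image]
    exact ⟨x.2, MvPolynomial.mem_support_iff.2 hx, rfl⟩

end Coord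

/-! ### The numerators -/

section Num

variable {F : Type} [Field F]

open Classical in
/-- the monomials of the numerators -/
noncomputable def IN (e n : ℕ) : Finset (ℕ × (Fin 3 ⊕ Fin 3 →₀ ℕ)) :=
  ((Finset.range (n + 1)) ×ˢ
    (Finset.Iic (Finsupp.equivFunOnFinite.symm (fun _ : Fin 3 ⊕ Fin 3 => e + n)))).filter
    fun x => 3 * x.1 ≤ n ∧ Finsupp.weight wx x.2 = e ∧ Finsupp.weight wy x.2 = n - 3 * x.1

theorem mem_IN {e n : ℕ} {N : R2 F} (h : BHN e n N) (x : ℕ × (Fin 3 ⊕ Fin 3 →₀ ℕ))
    (hx : co x N ≠ 0) : x ∈ IN e n := by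
  classical
  rw [co_apply] at hx
  have h1 : 3 * x.1 ≤ n := by
    by_contra h1
    rw [(h x.1).2 (by omega), MvPolynomial.coeff_zero] at hx
    exact hx rfl
  obtain ⟨h2, h3⟩ := (h x.1).1 h1
  have h4 : Finsupp.weight wx x.2 = e := h2 hx
  have h5 : Finsupp.weight wy x.2 = n - 3 * x.1 := h3 hx
  unfold IN
  rw [Finset.mem_filter, Finset.mem_product, Finset.mem_range, Finset.mem_Iic]
  refine ⟨⟨by omega, fun i => ?_⟩, h1, h4, h5⟩
  rw [Finsupp.equivFunOnFinite_symm_apply_apply]
  rcases i with i | i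
  · have h6 := Finsupp.le_weight wx (s := Sum.inl i) (by simp [wx]) x.2
    omega
  · have h6 := Finsupp.le_weight wy (s := Sum.inr i) (by simp [wy]) x.2
    omega

theorem BHN_mo {e n : ℕ} {x : ℕ × (Fin 3 ⊕ Fin 3 →₀ ℕ)} (hx : x ∈ IN e n) :
    BHN e n (mo F x) := by
  classical
  unfold IN at hx
  rw [Finset.mem_filter] at hx
  obtain ⟨-, h1, h2, h3⟩ := hx
  intro j
  rw [mo, Polynomial.coeff_monomial]
  by_cases hj : x.1 = j
  · rw [if_pos hj]
    subst hj
    exact ⟨fun _ => ⟨isWeightedHomogeneous_monomial _ _ _ h2,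
      isWeightedHomogeneous_monomial _ _ _ h3⟩, fun h => absurd h (by omega)⟩
  · rw [if_neg hj]
    exact ⟨fun _ => ⟨isWeightedHomogeneous_zero F _ _, isWeightedHomogeneous_zero F _ _⟩,
      fun _ => rfl⟩

/-- the space of all `N` with the right degrees -/
def BN (F : Type) [Field F] (e n : ℕ) : Submodule F (R2 F) where
  carrier := {N | BHN e n N}
  add_mem' := by
    intro a b h2 h5 j
    refine ⟨?_, ?_⟩
    · intro hj
      rw [Polynomial.coeff_add]
      exact ⟨((h2 j).1 hj).1.add ((h5 j).1 hj).1, ((h2 j).1 hj).2.add ((h5 j).1 hj).2⟩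
    · intro hj
      rw [Polynomial.coeff_add, (h2 j).2 hj, (h5 j).2 hj, add_zero]
  zero_mem' := by
    refine fun j => ⟨fun _ => ?_, fun _ => by simp⟩
    rw [Polynomial.coeff_zero]
    exact ⟨isWeightedHomogeneous_zero F _ _, isWeightedHomogeneous_zero F _ _⟩
  smul_mem' := by
    intro c a h2 j
    refine ⟨?_, ?_⟩
    · intro hj
      rw [Polynomial.coeff_smul]
      refine ⟨?_, ?_⟩
      · rw [MvPolynomial.smul_eq_C_mul]
        have h := (isWeightedHomogeneous_C wx c).mul ((h2 j).1 hj).1
        rwa [zero_add] at h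
      · rw [MvPolynomial.smul_eq_C_mul]
        have h := (isWeightedHomogeneous_C wy c).mul ((h2 j).1 hj).2
        rwa [zero_add] at h
    · intro hj
      rw [Polynomial.coeff_smul, (h2 j).2 hj, smul_zero]

/-- the coordinates of the numerators -/
noncomputable def cW (G : MvPolynomial (Fin 3) F) (d e n M : ℕ) :
    WS G d e n M →ₗ[F] ({x // x ∈ IN e n} → F) :=
  LinearMap.pi fun x => (co x.1).comp (WS G d e n M).subtype

theorem cW_apply (G : MvPolynomial (Fin 3) F) (d e n M : ℕ) (N : WS G d e n M)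
    (x : {x // x ∈ IN e n}) : cW G d e n M N x = co x.1 (N : R2 F) := rfl

theorem cW_inj (G : MvPolynomial (Fin 3) F) (d e n M : ℕ) :
    Function.Injective (cW G d e n M) := by
  intro N N' h
  refine Subtype.ext (ext_co fun x => ?_)
  by_cases hx : x ∈ IN e n
  · exact congrFun h ⟨x, hx⟩
  · have h1 : ∀ N : WS G d e n M, co x (N : R2 F) = 0 := by
      intro N
      by_contra h2
      exact hx (mem_IN N.2.2.1 x h2)
    rw [h1, h1]

theorem finite_WS (G : MvPolynomial (Fin 3) F) (d e n M : ℕ) :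
    Module.Finite F (WS G d e n M) :=
  Module.Finite.of_injective (cW G d e n M) (cW_inj G d e n M)

end Num

/-! ### The equations -/

section Eqs

variable {F : Type} [Field F]

theorem Psi_smul (G : MvPolynomial (Fin 3) F) (d : ℕ) (l : Fin 3) (a : F) (N : R2 F) :
    Psi G d l (a • N) = a • Psi G d l N := by
  have h1 : a • N = Polynomial.C (C a) * N := Algebra.smul_def a N
  have h2 : a • Psi G d l N = Polynomial.C (C a) * Psi G d l N := Algebra.smul_def a _
  rw [h1, h2, map_mul]
  congr 1
  unfold Psi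
  rw [Polynomial.coe_eval₂RingHom, Polynomial.eval₂_C]
  simp

/-- the space of the values of the equations -/
abbrev TG (F : Type) [Field F] : Type := (ℕ → A2 F) × (Fin 3 → P2 F)

/-- the equations -/
noncomputable def eqs (G : MvPolynomial (Fin 3) F) (d M : ℕ) :
    (R2 F × (Fin 3 → P2 F)) →ₗ[F] TG F where
  toFun v := (fun j => dv (v.1.coeff j), fun l => Psi G d l v.1 - gp G ^ M * v.2 l)
  map_add' v w := by
    refine Prod.ext ?_ ?_
    · funext j
      simp only [Prod.fst_add, Polynomial.coeff_add, map_add, Pi.add_apply]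
    · funext l
      simp only [Prod.fst_add, Prod.snd_add, map_add, Pi.add_apply]
      ring
  map_smul' a v := by
    refine Prod.ext ?_ ?_
    · funext j
      simp only [Prod.smul_fst, Polynomial.coeff_smul, Derivation.map_smul, Pi.smul_apply,
        RingHom.id_apply]
    · funext l
      simp only [Prod.smul_fst, Prod.smul_snd, Pi.smul_apply, RingHom.id_apply, Psi_smul,
        mul_smul_comm, smul_sub]

/-- rows -/
abbrev RW : Type := (ℕ × (Fin 3 ⊕ Fin 3 →₀ ℕ)) ⊕ (Fin 3 × (ℕ × (Fin 3 ⊕ Fin 2 →₀ ℕ)))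

/-- coefficients of the values of the equations -/
noncomputable def rf (σ : RW) : TG F →ₗ[F] F where
  toFun v := Sum.elim (fun x => MvPolynomial.coeff x.2 (v.1 x.1)) (fun y => co y.2 (v.2 y.1)) σ
  map_add' v w := by
    rcases σ with x | y
    · exact MvPolynomial.coeff_add _ _ _
    · exact map_add (co y.2) _ _
  map_smul' a v := by
    rcases σ with x | y
    · exact MvPolynomial.coeff_smul _ _ _
    · exact LinearMap.map_smul (co y.2) _ _

theorem rf_inl (x : ℕ × (Fin 3 ⊕ Fin 3 →₀ ℕ)) (v : TG F) :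
    rf (Sum.inl x) v = MvPolynomial.coeff x.2 (v.1 x.1) := rfl

theorem rf_inr (y : Fin 3 × (ℕ × (Fin 3 ⊕ Fin 2 →₀ ℕ))) (v : TG F) :
    rf (Sum.inr y) v = co y.2 (v.2 y.1) := rfl

theorem ext_rf {v : TG F} (h : ∀ σ, rf σ v = 0) : v = 0 := by
  refine Prod.ext ?_ ?_
  · funext j
    refine MvPolynomial.ext _ _ fun m => ?_
    exact h (Sum.inl (j, m))
  · funext l
    refine ext_co fun x => ?_
    rw [show (0 : TG F).2 l = 0 from rfl, map_zero]
    exact h (Sum.inr (l, x))

variable (e n : ℕ) (Z : Finset (Fin 3 × (ℕ × (Fin 3 ⊕ Fin 2 →₀ ℕ))))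

/-- columns -/
abbrev CL : Type := {x // x ∈ IN e n} ⊕ {y // y ∈ Z}

/-- the basis vectors -/
noncomputable def bv (F : Type) [Field F] : CL e n Z → R2 F × (Fin 3 → P2 F) :=
  Sum.elim (fun x => (mo F x.1, 0)) (fun y => (0, Pi.single y.1.1 (mo F y.1.2)))

/-- linear combination of the basis vectors -/
noncomputable def lcb (F : Type) [Field F] : (CL e n Z → F) →ₗ[F] R2 F × (Fin 3 → P2 F) where
  toFun c := ∑ α, c α • bv e n Z F α
  map_add' c c' := by
    simp only [Pi.add_apply, add_smul, Finset.sum_add_distrib]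
  map_smul' a c := by
    simp only [Pi.smul_apply, smul_eq_mul, mul_smul, RingHom.id_apply, Finset.smul_sum]

theorem lcb_apply (c : CL e n Z → F) : lcb e n Z F c = ∑ α, c α • bv e n Z F α := rfl

theorem lcb_fst (c : CL e n Z → F) : (lcb e n Z F c).1 = ∑ x, c (Sum.inl x) • mo F x.1 := by
  rw [lcb_apply, Prod.fst_sum, Fintype.sum_sum_type]
  simp [bv]

theorem lcb_snd (c : CL e n Z → F) (l : Fin 3) :
    (lcb e n Z F c).2 l = ∑ y, c (Sum.inr y) • (Pi.single y.1.1 (mo F y.1.2) : Fin 3 → P2 F) l := by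
  rw [lcb_apply, Prod.snd_sum, Fintype.sum_sum_type]
  simp [bv, Finset.sum_apply]

open Classical in
theorem co_fst (c : CL e n Z → F) (x : {x // x ∈ IN e n}) :
    co x.1 (lcb e n Z F c).1 = c (Sum.inl x) := by
  rw [lcb_fst, map_sum]
  simp only [LinearMap.map_smul, co_mo, smul_eq_mul, mul_ite, mul_one, mul_zero]
  rw [Finset.sum_eq_single x]
  · rw [if_pos rfl]
  · intro y _ hy
    rw [if_neg fun h => hy (Subtype.ext h)]
  · intro h
    exact absurd (Finset.mem_univ _) h

open Classical in
theorem co_snd (c : CL e n Z → F) (y : {y // y ∈ Z}) :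
    co y.1.2 ((lcb e n Z F c).2 y.1.1) = c (Sum.inr y) := by
  rw [lcb_snd, map_sum]
  rw [Finset.sum_eq_single y]
  · rw [LinearMap.map_smul, Pi.single_eq_same, co_mo, if_pos rfl, smul_eq_mul, mul_one]
  · intro z _ hz
    rw [LinearMap.map_smul]
    by_cases h1 : z.1.1 = y.1.1
    · rw [h1, Pi.single_eq_same, co_mo, if_neg fun h => hz (Subtype.ext (Prod.ext h1 h)),
        smul_zero]
    · rw [Pi.single_eq_of_ne (Ne.symm h1), map_zero, smul_zero]
  · intro h
    exact absurd (Finset.mem_univ _) h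

/-- the matrix of the equations -/
noncomputable def am (G : MvPolynomial (Fin 3) F) (d M : ℕ) (σ : RW) (α : CL e n Z) : F :=
  rf σ (eqs G d M (bv e n Z F α))

theorem mem_kz_am (G : MvPolynomial (Fin 3) F) (d M : ℕ) (c : CL e n Z → F) :
    c ∈ kz (am e n Z G d M) ↔ eqs G d M (lcb e n Z F c) = 0 := by
  have h1 : ∀ σ, ∑ α, c α * am e n Z G d M σ α = rf σ (eqs G d M (lcb e n Z F c)) := by
    intro σ
    rw [lcb_apply, map_sum, map_sum]
    refine Finset.sum_congr rfl fun α _ => ?_
    rw [LinearMap.map_smul, LinearMap.map_smul, smul_eq_mul]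
    rfl
  rw [mem_kz]
  constructor
  · intro h
    exact ext_rf fun σ => by rw [← h1 σ, h σ]
  · intro h σ
    rw [h1 σ, h, map_zero]

theorem aeval_xb (G : MvPolynomial (Fin 3) F) : (aeval xb G : B2 F) = rename Sum.inl G := by
  have e : (aeval xb : MvPolynomial (Fin 3) F →ₐ[F] B2 F) = rename Sum.inl := by
    ext i
    simp [xb]
  rw [e]

theorem gp_ne {G : MvPolynomial (Fin 3) F} (hG : G ≠ 0) : gp G ≠ 0 := by
  unfold gp
  rw [Ne, Polynomial.C_eq_zero, aeval_xb]
  intro h
  exact hG (rename_injective _ Sum.inl_injective (by rw [h, map_zero]))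

theorem WS_iff {G : MvPolynomial (Fin 3) F} {d M : ℕ} {N : R2 F} :
    N ∈ WS G d e n M ↔ Inv N ∧ BHN e n N ∧ ∀ l, gp G ^ M ∣ Psi G d l N := Iff.rfl

theorem eqs_eq_zero {G : MvPolynomial (Fin 3) F} {d M : ℕ} {v : R2 F × (Fin 3 → P2 F)} :
    eqs G d M v = 0 ↔ Inv v.1 ∧ ∀ l, Psi G d l v.1 = gp G ^ M * v.2 l := by
  constructor
  · intro h
    refine ⟨fun j => congrFun (congrArg Prod.fst h) j, fun l => ?_⟩
    exact sub_eq_zero.1 (congrFun (congrArg Prod.snd h) l)
  · rintro ⟨h1, h2⟩
    refine Prod.ext (funext h1) (funext fun l => ?_)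
    exact sub_eq_zero.2 (h2 l)

/-- upper bound for the space of solutions -/
theorem kz_le {G : MvPolynomial (Fin 3) F} (hG : G ≠ 0) (d M : ℕ) :
    Module.finrank F (kz (am e n Z G d M)) ≤ Module.finrank F (WS G d e n M) := by
  have hfin := finite_WS G d e n M
  have hmem : ∀ c : kz (am e n Z G d M), (lcb e n Z F c).1 ∈ WS G d e n M := by
    intro c
    obtain ⟨h1, h2⟩ := eqs_eq_zero.1 ((mem_kz_am e n Z G d M c).1 c.2)
    refine ⟨h1, ?_, fun l => ⟨_, h2 l⟩⟩
    rw [lcb_fst]
    exact (BN F e n).sum_mem fun x _ => (BN F e n).smul_mem _ (BHN_mo x.2)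
  let φ : kz (am e n Z G d M) →ₗ[F] WS G d e n M :=
    LinearMap.codRestrict (WS G d e n M)
      ((LinearMap.fst F (R2 F) (Fin 3 → P2 F)).comp
        ((lcb e n Z F).comp (kz (am e n Z G d M)).subtype)) hmem
  refine LinearMap.finrank_le_finrank_of_injective (f := φ) ?_
  intro c c' hc
  have h0 : (lcb e n Z F c).1 = (lcb e n Z F c').1 := congrArg Subtype.val hc
  obtain ⟨-, h2⟩ := eqs_eq_zero.1 ((mem_kz_am e n Z G d M c).1 c.2)
  obtain ⟨-, h2'⟩ := eqs_eq_zero.1 ((mem_kz_am e n Z G d M c').1 c'.2)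
  refine Subtype.ext (funext fun α => ?_)
  rcases α with x | y
  · rw [← co_fst e n Z (c : CL e n Z → F) x, ← co_fst e n Z (c' : CL e n Z → F) x, h0]
  · have h4 : (lcb e n Z F c).2 y.1.1 = (lcb e n Z F c').2 y.1.1 := by
      have h5 := h2 y.1.1
      rw [h0, h2' y.1.1] at h5
      exact (mul_left_cancel₀ (pow_ne_zero _ (gp_ne hG)) h5).symm
    rw [← co_snd e n Z (c : CL e n Z → F) y, ← co_snd e n Z (c' : CL e n Z → F) y, h4]

end Eqs

/-- lower bound for the space of solutions -/
theorem le_kz {F : Type} [Field F] (G : MvPolynomial (Fin 3) F) (d e n M : ℕ) :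
    ∃ Z : Finset (Fin 3 × (ℕ × (Fin 3 ⊕ Fin 2 →₀ ℕ))),
      Module.finrank F (WS G d e n M) ≤ Module.finrank F (kz (am e n Z G d M)) := by
  classical
  let b := Module.finBasis F (LinearMap.range (cW G d e n M))
  have h0 : ∀ i, ∃ N : WS G d e n M, cW G d e n M N = (b i : {x // x ∈ IN e n} → F) :=
    fun i => (b i).2
  choose N hN using h0
  have h1 : ∀ i l, ∃ Q : P2 F, Psi G d l (N i : R2 F) = gp G ^ M * Q := fun i l => (N i).2.2.2 l
  choose Q hQ using h1
  have h2 : ∀ i l, ∃ I : Finset (ℕ × (Fin 3 ⊕ Fin 2 →₀ ℕ)), ∀ x, co x (Q i l) ≠ 0 → x ∈ I :=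
    fun i l => exists_supp _
  choose I hI using h2
  let Z : Finset (Fin 3 × (ℕ × (Fin 3 ⊕ Fin 2 →₀ ℕ))) :=
    Finset.univ.biUnion fun i => Finset.univ.biUnion fun l => (I i l).image fun x => (l, x)
  have hZ : ∀ i l x, co x (Q i l) ≠ 0 → (l, x) ∈ Z := by
    intro i l x hx
    simp only [Z, Finset.mem_biUnion, Finset.mem_univ, true_and, Finset.mem_image]
    exact ⟨i, l, x, hI i l x hx, rfl⟩
  refine ⟨Z, ?_⟩
  let c : Fin (Module.finrank F (LinearMap.range (cW G d e n M))) → CL e n Z → F := fun i =>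
    Sum.elim (fun x => co x.1 (N i : R2 F)) (fun y => co y.1.2 (Q i y.1.1))
  have hc1 : ∀ i, (lcb e n Z F (c i)).1 = N i := by
    intro i
    rw [lcb_fst]
    have h3 := expand (IN e n) (N i : R2 F) fun x hx => mem_IN (N i).2.2.1 x hx
    rw [← Finset.sum_coe_sort] at h3
    exact h3
  have hc2 : ∀ i l, (lcb e n Z F (c i)).2 l = Q i l := by
    intro i l
    refine ext_co fun x => ?_
    by_cases hx : (l, x) ∈ Z
    · exact co_snd e n Z (c i) ⟨(l, x), hx⟩
    · have h3 : co x (Q i l) = 0 := by
        by_contra h3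
        exact hx (hZ i l x h3)
      rw [h3, lcb_snd, map_sum]
      refine Finset.sum_eq_zero fun y _ => ?_
      rw [LinearMap.map_smul]
      by_cases h4 : y.1.1 = l
      · rw [h4, Pi.single_eq_same, co_mo, if_neg, smul_zero]
        intro h5
        exact hx (by rw [← h4, ← h5]; exact y.2)
      · rw [Pi.single_eq_of_ne (Ne.symm h4), map_zero, smul_zero]
  have hc : ∀ i, c i ∈ kz (am e n Z G d M) := by
    intro i
    rw [mem_kz_am, eqs_eq_zero]
    refine ⟨?_, fun l => ?_⟩
    · rw [hc1]
      exact (N i).2.1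
    · rw [hc1, hc2]
      exact hQ i l
  let ψ : kz (am e n Z G d M) →ₗ[F] ({x // x ∈ IN e n} → F) :=
    (LinearMap.funLeft F F (Sum.inl : {x // x ∈ IN e n} → CL e n Z)).comp
      (kz (am e n Z G d M)).subtype
  have h3 : (ψ ∘ fun i => (⟨c i, hc i⟩ : kz (am e n Z G d M))) =
      fun i => (b i : {x // x ∈ IN e n} → F) := by
    funext i
    rw [← hN i]
    rfl
  have h4 : LinearIndependent F (ψ ∘ fun i => (⟨c i, hc i⟩ : kz (am e n Z G d M))) := by
    rw [h3]
    exact b.linearIndependent.map' (LinearMap.range (cW G d e n M)).subtype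
      (Submodule.ker_subtype _)
  have h5 := (LinearIndependent.of_comp ψ h4).fintype_card_le_finrank
  rw [Fintype.card_fin] at h5
  have h6 := (LinearEquiv.ofInjective (cW G d e n M) (cW_inj G d e n M)).finrank_eq
  rw [h6]
  exact h5

/-! ### The pencil -/

section Pencil

variable {k K : Type} [Field k] [Field K] [Algebra k K]

theorem dv_map (c : A2 k) :
    dv (MvPolynomial.map (algebraMap k K) c) = MvPolynomial.map (algebraMap k K) (dv c) := by
  induction c using MvPolynomial.induction_on with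
  | C a => rw [map_C, ← algebraMap_eq, ← algebraMap_eq, Derivation.map_algebraMap,
      Derivation.map_algebraMap, map_zero]
  | add p q hp hq => rw [map_add, map_add, hp, hq, map_add, map_add]
  | mul_X p i hp =>
    rw [map_mul, Derivation.leibniz, Derivation.leibniz, map_add, smul_eq_mul, smul_eq_mul,
      smul_eq_mul, smul_eq_mul, map_mul, map_mul, hp, map_X]
    congr 2
    unfold dv
    rw [mkDerivation_X, mkDerivation_X]
    rcases i with i | i
    · simp
    · simp

theorem map_mo {τ : Type} (x : ℕ × (τ →₀ ℕ)) :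
    Polynomial.map (MvPolynomial.map (algebraMap k K)) (mo k x) = mo K x := by
  unfold mo
  rw [Polynomial.map_monomial, MvPolynomial.map_monomial, map_one]

/-- coefficients of a polynomial in the parameter -/
noncomputable def sw {τ : Type} (x : ℕ × (τ →₀ ℕ))
    (P : Polynomial (Polynomial (MvPolynomial τ k))) : Polynomial k :=
  P.sum fun i a => Polynomial.monomial i (co x a)

theorem sw_zero {τ : Type} (x : ℕ × (τ →₀ ℕ))
    (P : Polynomial (Polynomial (MvPolynomial τ k))) :
    (sw x P).eval 0 = co x (P.eval 0) := by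
  unfold sw
  rw [Polynomial.sum_def, Polynomial.eval_finsetSum, Polynomial.eval_eq_sum, Polynomial.sum_def,
    map_sum]
  refine Finset.sum_congr rfl fun i _ => ?_
  rw [Polynomial.eval_monomial]
  rcases Nat.eq_zero_or_pos i with h | h
  · subst h
    simp
  · rw [zero_pow h.ne', zero_pow h.ne', mul_zero, mul_zero, map_zero]

theorem sw_t {τ : Type} (t : K) (x : ℕ × (τ →₀ ℕ))
    (P : Polynomial (Polynomial (MvPolynomial τ k))) :
    Polynomial.aeval t (sw x P) = co x (Polynomial.eval₂
      (Polynomial.mapRingHom (MvPolynomial.map (algebraMap k K))) (Polynomial.C (C t)) P) := by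
  unfold sw
  rw [Polynomial.sum_def, map_sum, Polynomial.eval₂_eq_sum, Polynomial.sum_def, map_sum]
  refine Finset.sum_congr rfl fun i _ => ?_
  rw [Polynomial.aeval_monomial, co_apply, co_apply, ← Polynomial.C_pow, ← C_pow,
    Polynomial.coeff_mul_C, mul_comm _ (C (t ^ i)), MvPolynomial.coeff_C_mul,
    Polynomial.coe_mapRingHom, Polynomial.coeff_map, MvPolynomial.coeff_map, mul_comm]

theorem gp_map (G : MvPolynomial (Fin 3) k) :
    Polynomial.map (MvPolynomial.map (algebraMap k K)) (gp G) =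
      gp (MvPolynomial.map (algebraMap k K) G) := by
  unfold gp
  rw [Polynomial.map_C, aeval_xb, aeval_xb, map_rename]

theorem gp_pencil (t : K) (G H : MvPolynomial (Fin 3) k) :
    Polynomial.eval₂ (Polynomial.mapRingHom (MvPolynomial.map (algebraMap k K)))
      (Polynomial.C (C t)) (Polynomial.C (gp G) + Polynomial.X * Polynomial.C (gp H)) =
    gp (MvPolynomial.map (algebraMap k K) G + C t * MvPolynomial.map (algebraMap k K) H) := by
  rw [Polynomial.eval₂_add, Polynomial.eval₂_mul, Polynomial.eval₂_C, Polynomial.eval₂_C,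
    Polynomial.eval₂_X, Polynomial.coe_mapRingHom, gp_map, gp_map]
  unfold gp
  rw [map_add, map_mul, Polynomial.C_add, Polynomial.C_mul, algHom_C, algebraMap_eq]

theorem map_single (l l' : Fin 3) (x : ℕ × (Fin 3 ⊕ Fin 2 →₀ ℕ)) :
    Polynomial.map (MvPolynomial.map (algebraMap k K))
      ((Pi.single l (mo k x) : Fin 3 → P2 k) l') = (Pi.single l (mo K x) : Fin 3 → P2 K) l' := by
  by_cases h : l' = l
  · subst h
    rw [Pi.single_eq_same, Pi.single_eq_same, map_mo]
  · rw [Pi.single_eq_of_ne h, Pi.single_eq_of_ne h, Polynomial.map_zero]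

end Pencil

theorem pf_SP2 (hMRK : Pool.Agent.H84.ND.T_MRK) (hPFA : Pool.Agent.H84.ND.T_PFA) :
    Pool.Agent.H84.ND.T_SP2 := by
  intro k K _ _ _ _ t ht G H d e n M hG _ _
  refine ⟨finite_WS G d e n M, ?_⟩
  obtain ⟨Z, hZ⟩ := le_kz (MvPolynomial.map (algebraMap k K) G +
    C t * MvPolynomial.map (algebraMap k K) H) d e n M
  choose Φ hΦ0 hΦt using fun l => hPFA k K t G H d l
  let A : RW → CL e n Z → Polynomial k := fun σ α =>
    Sum.elim
      (fun x => Sum.elim (fun a => Polynomial.C (am e n Z G d M (Sum.inl x) (Sum.inl a)))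
        (fun _ => 0) α)
      (fun y => Sum.elim (fun a => sw y.2 (Φ y.1 (mo k a.1)))
        (fun b => sw y.2 (-((Polynomial.C (gp G) + Polynomial.X * Polynomial.C (gp H)) ^ M *
          Polynomial.C ((Pi.single b.1.1 (mo k b.1.2) : Fin 3 → P2 k) y.1)))) α) σ
  have h0 : ∀ σ α, (A σ α).eval 0 = am e n Z G d M σ α := by
    intro σ α
    rcases σ with x | y
    · rcases α with a | b
      · exact Polynomial.eval_C
      · simp only [A, Sum.elim_inl, Sum.elim_inr, Polynomial.eval_zero]
        simp [am, rf_inl, eqs, bv]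
    · rcases α with a | b
      · simp only [A, Sum.elim_inl, Sum.elim_inr]
        rw [sw_zero, hΦ0]
        simp [am, rf_inr, eqs, bv]
      · simp only [A, Sum.elim_inr]
        rw [sw_zero]
        simp [am, rf_inr, eqs, bv]
  have h1 : ∀ σ α, Polynomial.aeval t (A σ α) = am e n Z (MvPolynomial.map (algebraMap k K) G +
      C t * MvPolynomial.map (algebraMap k K) H) d M σ α := by
    intro σ α
    rcases σ with x | y
    · rcases α with a | b
      · simp only [A, Sum.elim_inl, Polynomial.aeval_C]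
        change algebraMap k K (MvPolynomial.coeff x.2 (dv ((mo k a.1).coeff x.1))) =
          MvPolynomial.coeff x.2 (dv ((mo K a.1).coeff x.1))
        have e1 : mo K a.1 = Polynomial.map (MvPolynomial.map (algebraMap k K)) (mo k a.1) :=
          (map_mo a.1).symm
        rw [e1, Polynomial.coeff_map, dv_map, MvPolynomial.coeff_map]
      · simp only [A, Sum.elim_inl, Sum.elim_inr, map_zero]
        simp [am, rf_inl, eqs, bv]
    · rcases α with a | b
      · simp only [A, Sum.elim_inl, Sum.elim_inr]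
        rw [sw_t, hΦt, map_mo]
        simp [am, rf_inr, eqs, bv]
      · simp only [A, Sum.elim_inr]
        rw [sw_t, Polynomial.eval₂_neg, Polynomial.eval₂_mul, Polynomial.eval₂_pow, gp_pencil,
          Polynomial.eval₂_C, Polynomial.coe_mapRingHom, map_single]
        simp [am, rf_inr, eqs, bv]
  have h2 := semi hMRK ht A
  have h3 : (fun σ α => Polynomial.aeval t (A σ α)) =
      am e n Z (MvPolynomial.map (algebraMap k K) G +
      C t * MvPolynomial.map (algebraMap k K) H) d M := funext fun σ => funext fun α => h1 σ α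
  have h4 : (fun σ α => (A σ α).eval 0) = am e n Z G d M :=
    funext fun σ => funext fun α => h0 σ α
  rw [h3, h4] at h2
  exact (hZ.trans h2).trans (kz_le e n Z hG d M)

end Pool.Agent.H34.ND
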